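import Pool.Agent.helper42.NS.Spec2

/-!
# Rows CTG and CTF of the projects nos, nos2: the final counting
-/

namespace Pool.Agent.helper42.NS

open Polynomial Matrix

theorem CTG_bord {t : ℕ} (H : Matrix (Fin t) (Fin t) ℤ) (v : Fin t → ℤ) (hH : IsGr H)
    (hv : ∀ i, v i = 0 ∨ v i = 1) : IsGr (bord H v) := by
  refine ⟨?_, ?_, ?_⟩
  · intro i j
    refine Fin.cases ?_ (fun i => ?_) i
    · refine Fin.cases ?_ (fun j => ?_) j
      · left; rfl
      · exact hv j
    · refine Fin.cases ?_ (fun j => ?_) j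
      · exact hv i
      · exact hH.1 i j
  · intro i
    refine Fin.cases ?_ (fun i => ?_) i
    · rfl
    · exact hH.2.1 i
  · intro i j
    refine Fin.cases ?_ (fun i => ?_) i
    · refine Fin.cases ?_ (fun j => ?_) j
      · rfl
      · rfl
    · refine Fin.cases ?_ (fun j => ?_) j
      · rfl
      · exact hH.2.2 i j

theorem CTG_dbl {m : ℕ} (H : Matrix (Fin m) (Fin m) ℤ) (b c : Fin m → Bool) (hH : IsGr H) :
    IsGr (dbl H b c) := by
  have h1 : ∀ (d : Fin m → Bool) (i : Fin m), ind d i = 0 ∨ ind d i = 1 := by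
    intro d i
    unfold ind
    by_cases h : d i = true
    · right; rw [if_pos h]
    · left; rw [if_neg h]
  refine CTG_bord _ _ (CTG_bord _ _ hH (h1 b)) ?_
  intro i
  refine Fin.cases ?_ (fun i => ?_) i
  · left; rfl
  · exact h1 c i

theorem CTG_fin (m : ℕ) : {H : Matrix (Fin m) (Fin m) ℤ | IsGr H}.Finite := by
  refine Set.Finite.subset (Set.finite_range
    (fun g : Fin m → Fin m → Bool => (Matrix.of fun i j => if g i j then (1 : ℤ) else 0 :
      Matrix (Fin m) (Fin m) ℤ))) ?_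
  intro H hH
  refine ⟨fun i j => decide (H i j = 1), ?_⟩
  ext i j
  rcases hH.1 i j with h | h
  · simp [h]
  · simp [h]

theorem CTG_specs_fin (n : ℕ) : (specs n).Finite := by
  classical
  refine Set.Finite.subset (Set.finite_range
    (fun G : SimpleGraph (Fin n) => (G.adjMatrix ℤ).charpoly)) ?_
  rintro p ⟨G, hG, rfl⟩
  refine ⟨G, ?_⟩
  simp only
  congr

theorem CTG_specs (n : ℕ) (p : ℤ[X]) (hp : p ∈ specs n) : p.Monic ∧ p.natDegree = n := by
  obtain ⟨G, hG, rfl⟩ := hp
  refine ⟨Matrix.charpoly_monic _, ?_⟩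
  rw [Matrix.charpoly_natDegree_eq_dim, Fintype.card_fin]

theorem CTG_core (h1 : ISO_stmt) (h2 : DIV_stmt) (h3 : UNI_stmt) (m k n : ℕ)
    (hn : (k + 1) ^ 2 * (m + 2) ≤ n) :
    Set.ncard {H : Matrix (Fin m) (Fin m) ℤ | IsGr H ∧ ∃ B : Fin k → Fin m → Bool,
      Kry H (Set.range fun i => ind (B i)) = ⊤} ≤
      Set.ncard (specs n) * 2 ^ (n * (k + 1) ^ 2) * m.factorial := by
  classical
  set T : Set (Matrix (Fin m) (Fin m) ℤ) := {H | IsGr H ∧ ∃ B : Fin k → Fin m → Bool,
      Kry H (Set.range fun i => ind (B i)) = ⊤} with hT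
  have hTf : T.Finite := (CTG_fin m).subset fun H h => h.1
  have hTB : ∀ H : Matrix (Fin m) (Fin m) ℤ, ∃ B : Fin k → Fin m → Bool, H ∈ T →
      Kry H (Set.range fun i => ind (B i)) = ⊤ := by
    intro H
    by_cases h : H ∈ T
    · obtain ⟨B, hB⟩ := h.2
      exact ⟨B, fun _ => hB⟩
    · exact ⟨fun _ _ => false, fun h' => absurd h' h⟩
  choose B hB using hTB
  set G : Matrix (Fin m) (Fin m) ℤ → (Fin (k + 1) × Fin (k + 1) → ℤ[X]) :=
    fun H ij => (dbl H (ext (B H) ij.1) (ext (B H) ij.2)).charpoly with hG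
  have hDf : ∀ F : ℤ[X], F ∈ specs n → {f : ℤ[X] | f.Monic ∧ f ∣ F}.Finite := fun F hF =>
    (h2 F (CTG_specs n F hF).1).1
  have hDn : ∀ F : ℤ[X], F ∈ specs n → Set.ncard {f : ℤ[X] | f.Monic ∧ f ∣ F} ≤ 2 ^ n := by
    intro F hF
    have h := (h2 F (CTG_specs n F hF).1).2
    rw [(CTG_specs n F hF).2] at h
    exact h
  -- the image
  set D : ℤ[X] → Finset ℤ[X] := fun F => if h : F ∈ specs n then (hDf F h).toFinset else ∅ with hD
  have hDc : ∀ F, (D F).card ≤ 2 ^ n := by
    intro F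
    by_cases h : F ∈ specs n
    · rw [hD]
      simp only [dif_pos h]
      rw [← Set.ncard_eq_toFinset_card _ (hDf F h)]
      exact hDn F h
    · rw [hD]
      simp only [dif_neg h]
      exact Nat.zero_le _
  set S : Finset ℤ[X] := (CTG_specs_fin n).toFinset with hS
  set I : Finset (Fin (k + 1) × Fin (k + 1) → ℤ[X]) :=
    S.biUnion fun F => Fintype.piFinset fun _ => D F with hI
  have hIc : I.card ≤ Set.ncard (specs n) * 2 ^ (n * (k + 1) ^ 2) := by
    have e1 : Set.ncard (specs n) = S.card := Set.ncard_eq_toFinset_card _ _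
    rw [e1]
    refine Finset.card_biUnion_le_card_mul _ _ _ ?_
    intro F hF
    rw [Fintype.card_piFinset, Finset.prod_const, Finset.card_univ]
    have e2 : Fintype.card (Fin (k + 1) × Fin (k + 1)) = (k + 1) ^ 2 := by
      rw [Fintype.card_prod, Fintype.card_fin]; ring
    rw [e2, pow_mul]
    exact Nat.pow_le_pow_left (hDc F) _
  have hmap : ∀ H ∈ hTf.toFinset, G H ∈ I := by
    intro H hH
    rw [Set.Finite.mem_toFinset] at hH
    have hgr : IsGr H := hH.1
    set e : Fin ((k + 1) * (k + 1)) ≃ Fin (k + 1) × Fin (k + 1) := finProdFinEquiv.symm with he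
    have hu := h3 ((k + 1) * (k + 1)) (m + 2) n
      (fun a => dbl H (ext (B H) (e a).1) (ext (B H) (e a).2))
      (fun a => CTG_dbl _ _ _ hgr) (by rw [← sq]; exact hn)
    set F : ℤ[X] := X ^ (n - (k + 1) * (k + 1) * (m + 2)) *
      ∏ a : Fin ((k + 1) * (k + 1)), (dbl H (ext (B H) (e a).1) (ext (B H) (e a).2)).charpoly with hF
    rw [hI, Finset.mem_biUnion]
    refine ⟨F, ?_, ?_⟩
    · rw [hS, Set.Finite.mem_toFinset]
      exact hu
    · rw [Fintype.mem_piFinset]
      intro ij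
      rw [hD]
      simp only [dif_pos hu]
      rw [Set.Finite.mem_toFinset]
      refine ⟨Matrix.charpoly_monic _, ?_⟩
      rw [hF]
      refine Dvd.dvd.mul_left ?_ _
      have h5 := Finset.dvd_prod_of_mem
        (fun a : Fin ((k + 1) * (k + 1)) => (dbl H (ext (B H) (e a).1) (ext (B H) (e a).2)).charpoly)
        (Finset.mem_univ (e.symm ij))
      simp only [Equiv.apply_symm_apply] at h5
      exact h5
  have hfib : ∀ F ∈ I, (hTf.toFinset.filter fun H => G H = F).card ≤ m.factorial := by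
    intro F hF
    have h6 := h1 m k (fun i j => F (i, j))
    refine le_trans ?_ h6
    rw [← Set.ncard_coe_finset]
    refine Set.ncard_le_ncard ?_ ((CTG_fin m).subset fun H h => h.1)
    intro H hH
    rw [Finset.mem_coe, Finset.mem_filter, Set.Finite.mem_toFinset] at hH
    refine ⟨hH.1.1, B H, hB H hH.1, ?_⟩
    intro i j
    have h7 := congrFun hH.2 (i, j)
    exact h7
  have h8 : hTf.toFinset.card ≤ m.factorial * I.card :=
    Finset.card_le_mul_card_image_of_maps_to hmap m.factorial hfib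
  rw [Set.ncard_eq_toFinset_card _ hTf]
  calc hTf.toFinset.card ≤ m.factorial * I.card := h8
    _ ≤ m.factorial * (Set.ncard (specs n) * 2 ^ (n * (k + 1) ^ 2)) := Nat.mul_le_mul_left _ hIc
    _ = Set.ncard (specs n) * 2 ^ (n * (k + 1) ^ 2) * m.factorial := by ring

theorem CTG (h1 : ISO_stmt) (h2 : DIV_stmt) (h3 : UNI_stmt) : CTG_stmt := by
  intro m k n hcnt hn
  have h := CTG_core h1 h2 h3 m k n hn
  have hc : cnt m (fun H => ∃ B : Fin k → Fin m → Bool,
    Kry H (Set.range fun i => ind (B i)) = ⊤) = Set.ncard {H : Matrix (Fin m) (Fin m) ℤ | IsGr H ∧ ∃ B : Fin k → Fin m → Bool,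
      Kry H (Set.range fun i => ind (B i)) = ⊤} := rfl
  rw [hc] at hcnt
  calc 2 ^ (m.choose 2) ≤ _ := hcnt
    _ ≤ 4 * (Set.ncard (specs n) * 2 ^ (n * (k + 1) ^ 2) * m.factorial) := Nat.mul_le_mul_left _ h
    _ = _ := by ring

end Pool.Agent.helper42.NS
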