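import Pool.Agent.helper88.NS.CTG

/-!
# Row CTF of the project nos
-/

namespace Pool.Agent.helper42.NS

open Polynomial Matrix

theorem CTF (h1 : CNT_stmt) (h2 : GEN_stmt) (h3 : ISO_stmt) (h4 : DIV_stmt) (h5 : UNI_stmt) :
    CTF_stmt := by
  intro m L n hL hm hn
  have h6 := h1 m L hL hm
  have h7 := CTG_core h3 h4 h5 m (12 * L + 8) n hn
  have h8 : Set.ncard {H : Matrix (Fin m) (Fin m) ℤ | IsGr H ∧ Good L H} ≤
      Set.ncard {H : Matrix (Fin m) (Fin m) ℤ | IsGr H ∧ ∃ B : Fin (12 * L + 8) → Fin m → Bool,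
        Kry H (Set.range fun i => ind (B i)) = ⊤} := by
    refine Set.ncard_le_ncard ?_ ((CTG_fin m).subset fun H h => h.1)
    intro H hH
    exact ⟨hH.1, h2 m L H hL hH.1 hm hH.2⟩
  calc 2 ^ (m.choose 2) ≤ _ := h6
    _ ≤ 2 * (Set.ncard (specs n) * 2 ^ (n * (12 * L + 8 + 1) ^ 2) * m.factorial) :=
        Nat.mul_le_mul_left _ (h8.trans h7)
    _ = _ := by ring

end Pool.Agent.helper42.NS
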